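import Mathlib

set_option autoImplicit false
open IsLocalRing RingTheory.Sequence

namespace EA7

namespace H4

/-- private copy of D1, used for D3 -/
theorem artinian_quot' {R : Type} [CommRing R] [IsNoetherianRing R] [IsLocalRing R] (rs : List R)
    (hm : ∀ r ∈ rs, r ∈ maximalIdeal R) (hR : IsWeaklyRegular R rs)
    (hd : (rs.length : WithBot ℕ∞) = ringKrullDim R) : IsArtinianRing (R ⧸ Ideal.ofList rs) := by
  have hle : Ideal.ofList rs ≤ maximalIdeal R := Ideal.span_le.mpr hm
  have hne : Ideal.ofList rs ≠ ⊤ := fun h => (IsLocalRing.maximalIdeal.isMaximal R).ne_top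
    (top_le_iff.mp (h ▸ hle))
  have hreg : IsRegular R rs := by
    refine ⟨hR, ?_⟩
    intro h
    apply hne
    have : Ideal.ofList rs • (⊤ : Submodule R R) = Ideal.ofList rs := by simp
    rw [← this]; exact h.symm
  have h := ringKrullDim_add_length_eq_ringKrullDim_of_isRegular rs hreg
  have h0 : ringKrullDim (R ⧸ Ideal.ofList rs) = 0 := by
    rw [← hd] at h
    have hfin : ringKrullDim (R ⧸ Ideal.ofList rs) + (rs.length : WithBot ℕ∞)
        = 0 + (rs.length : WithBot ℕ∞) := by rw [h, zero_add]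
    exact ENat.WithBot.add_natCast_cancel.mp hfin
  rw [isArtinianRing_iff_krullDimLE_zero, Ring.KrullDimLE, Order.krullDimLE_iff]
  exact h0.le

end H4

/-- Task D2. (p maximal among the primes ≠ m containing x; exists by Krull's principal ideal
theorem) -/
theorem exists_coheight_one_prime {R : Type} [CommRing R] [IsNoetherianRing R] [IsLocalRing R]
    (hd : 2 ≤ ringKrullDim R) (x : R) (hx : x ∈ maximalIdeal R) :
    ∃ p : Ideal R, p.IsPrime ∧ x ∈ p ∧ p ≠ maximalIdeal R ∧
      ∀ r : R, r ∈ maximalIdeal R → r ∉ p →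
        IsArtinianRing ((R ⧸ p) ⧸ Ideal.span {Ideal.Quotient.mk p r}) := by
  classical
  -- the set of primes different from `m` containing `x` is nonempty
  have hne : ∃ p : Ideal R, p.IsPrime ∧ x ∈ p ∧ p ≠ maximalIdeal R := by
    by_contra hcon
    push Not at hcon
    have hmin : maximalIdeal R ∈ (Ideal.span {x}).minimalPrimes := by
      rw [Ideal.minimalPrimes, Set.mem_ofPred]
      refine ⟨⟨inferInstance, (Ideal.span_singleton_le_iff_mem _).mpr hx⟩, ?_⟩
      rintro q ⟨hq, hxq⟩ _
      rw [hcon q hq ((Ideal.span_singleton_le_iff_mem _).mp hxq)]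
    have hht := Ideal.height_le_one_of_isPrincipal_of_mem_minimalPrimes _ _ hmin
    rw [← IsLocalRing.maximalIdeal_height_eq_ringKrullDim] at hd
    have h2 : (2 : ℕ∞) ≤ (maximalIdeal R).height := WithBot.coe_le_coe.mp hd
    have h3 : (2 : ℕ∞) ≤ 1 := h2.trans hht
    exact absurd h3 (by decide)
  obtain ⟨p, ⟨hp, hxp, hpm⟩, hmax⟩ := set_has_maximal_iff_noetherian.mpr
    (inferInstanceAs (IsNoetherian R R))
    {p : Ideal R | p.IsPrime ∧ x ∈ p ∧ p ≠ maximalIdeal R} hne
  refine ⟨p, hp, hxp, hpm, fun r hr hrp => ?_⟩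
  have := hp
  have : Ring.KrullDimLE 0 ((R ⧸ p) ⧸ Ideal.span {Ideal.Quotient.mk p r}) := by
    rw [Ring.krullDimLE_zero_iff]
    intro Q hQ
    let f : R →+* (R ⧸ p) ⧸ Ideal.span {Ideal.Quotient.mk p r} :=
      (Ideal.Quotient.mk _).comp (Ideal.Quotient.mk p)
    have hf : Function.Surjective f :=
      Ideal.Quotient.mk_surjective.comp Ideal.Quotient.mk_surjective
    have hq : (Q.comap f).IsPrime := Ideal.IsPrime.comap f
    have hpq : p ≤ Q.comap f := by
      intro y hy
      rw [Ideal.mem_comap]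
      have : f y = 0 := by
        change Ideal.Quotient.mk _ (Ideal.Quotient.mk p y) = 0
        rw [Ideal.Quotient.eq_zero_iff_mem.mpr hy, map_zero]
      rw [this]; exact Q.zero_mem
    have hrq : r ∈ Q.comap f := by
      rw [Ideal.mem_comap]
      have : f r = 0 := by
        change Ideal.Quotient.mk _ (Ideal.Quotient.mk p r) = 0
        rw [Ideal.Quotient.eq_zero_iff_mem]
        exact Ideal.mem_span_singleton_self _
      rw [this]; exact Q.zero_mem
    have hqm : Q.comap f = maximalIdeal R := by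
      by_contra hqm
      refine hmax (Q.comap f) ⟨hq, hpq hxp, hqm⟩ (lt_of_le_of_ne hpq ?_)
      intro h
      exact hrp (h ▸ hrq)
    have hmaxi : (Q.comap f).IsMaximal := hqm ▸ IsLocalRing.maximalIdeal.isMaximal R
    have hmap : (Q.comap f).map f = Q := Ideal.map_comap_of_surjective f hf Q
    rcases Ideal.map_eq_top_or_isMaximal_of_surjective f hf hmaxi with h | h
    · exact absurd (hmap ▸ h) hQ.ne_top
    · exact hmap ▸ h
  exact IsNoetherianRing.isArtinianRing_of_krullDimLE_zero

/-- Task D3. -/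
theorem exists_perm {R : Type} [CommRing R] [IsNoetherianRing R] [IsLocalRing R] (rs : List R)
    (hm : ∀ r ∈ rs, r ∈ maximalIdeal R) (hR : IsWeaklyRegular R rs)
    (hd : (rs.length : WithBot ℕ∞) = ringKrullDim R) (p : Ideal R) (hp : p.IsPrime)
    (hpm : p ≠ maximalIdeal R) :
    ∃ (r : R) (rs' : List R), r ∉ p ∧ (r :: rs').Perm rs ∧ IsWeaklyRegular R (r :: rs') := by
  classical
  have hex : ∃ r ∈ rs, r ∉ p := by
    by_contra hcon
    push Not at hcon
    have hle : Ideal.ofList rs ≤ p := Ideal.span_le.mpr hcon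
    have := H4.artinian_quot' rs hm hR hd
    have hQ : (p.map (Ideal.Quotient.mk (Ideal.ofList rs))).IsPrime :=
      Ideal.map_isPrime_of_surjective Ideal.Quotient.mk_surjective (by
        rw [Ideal.mk_ker]; exact hle)
    have hQm : (p.map (Ideal.Quotient.mk (Ideal.ofList rs))).IsMaximal :=
      IsArtinianRing.isMaximal_of_isPrime _
    have hc : ((p.map (Ideal.Quotient.mk (Ideal.ofList rs))).comap
        (Ideal.Quotient.mk (Ideal.ofList rs))).IsMaximal :=
      Ideal.comap_isMaximal_of_surjective _ Ideal.Quotient.mk_surjective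
    rw [Ideal.comap_map_of_surjective _ Ideal.Quotient.mk_surjective, ← RingHom.ker_eq_comap_bot,
      Ideal.mk_ker, sup_eq_left.mpr hle] at hc
    exact hpm (IsLocalRing.eq_maximalIdeal hc)
  obtain ⟨r, hr, hrp⟩ := hex
  have hperm : (r :: rs.erase r).Perm rs := (List.perm_cons_erase hr).symm
  exact ⟨r, rs.erase r, hrp, hperm,
    IsLocalRing.isWeaklyRegular_of_perm_of_subset_maximalIdeal hR hperm.symm hm⟩

end EA7
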